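import Pool.Agent.Helper82.CN.St

/-!
# Project CN, module OVG: grouping the patterns by multiplicities
-/

set_option autoImplicit false

namespace Pool.Agent.Helper4.CN

open Finset Pool.Agent.Helper82.CN

/-- `(x + y)^(m+1) ≥ x^(m+1) + (m+1) x^m y` -/
private theorem pow_OVG (x y : ℝ) (hx : 0 ≤ x) (hy : 0 ≤ y) (m : ℕ) :
    x ^ (m + 1) + ((m : ℝ) + 1) * x ^ m * y ≤ (x + y) ^ (m + 1) := by
  induction m with
  | zero => simp
  | succ m ih =>
    have h1 : 0 ≤ x + y := by linarith
    have h2 : 0 ≤ ((m : ℝ) + 1) * x ^ m * y * y := by positivity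
    calc x ^ (m + 1 + 1) + (((m + 1 : ℕ) : ℝ) + 1) * x ^ (m + 1) * y
        ≤ (x ^ (m + 1) + ((m : ℝ) + 1) * x ^ m * y) * (x + y) := by
          push_cast
          have e : (x ^ (m + 1) + ((m : ℝ) + 1) * x ^ m * y) * (x + y) =
            x ^ (m + 1 + 1) + ((m : ℝ) + 1 + 1) * x ^ (m + 1) * y +
              ((m : ℝ) + 1) * x ^ m * y * y := by ring
          rw [e]
          linarith
      _ ≤ (x + y) ^ (m + 1) * (x + y) := mul_le_mul_of_nonneg_right ih h1
      _ = (x + y) ^ (m + 1 + 1) := by ring

/-- elementary symmetric sums -/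
private theorem esymm_OVG {ι : Type} [DecidableEq ι] (w : ι → ℝ) (hw : ∀ i, 0 ≤ w i)
    (s : Finset ι) :
    ∀ m : ℕ, (m.factorial : ℝ) * ∑ S ∈ s.powersetCard m, ∏ i ∈ S, w i ≤ (∑ i ∈ s, w i) ^ m := by
  induction s using Finset.induction_on with
  | empty =>
    intro m
    cases m with
    | zero => simp
    | succ m =>
      rw [Finset.powersetCard_eq_empty.2 (by simp)]
      simp
  | insert a s ha ih =>
    intro m
    cases m with
    | zero => simp
    | succ m =>
      have hdisj : Disjoint (powersetCard (m + 1) s) ((powersetCard m s).image (insert a)) := by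
        rw [Finset.disjoint_left]
        intro S hS hS'
        obtain ⟨S', _, rfl⟩ := Finset.mem_image.1 hS'
        exact ha ((Finset.mem_powersetCard.1 hS).1 (Finset.mem_insert_self a S'))
      have hinj : Set.InjOn (insert a : Finset ι → Finset ι) (powersetCard m s : Set (Finset ι)) := by
        intro S hS S' hS' h
        have h1 : a ∉ S := fun h' => ha ((Finset.mem_powersetCard.1 (Finset.mem_coe.1 hS)).1 h')
        have h2 : a ∉ S' := fun h' => ha ((Finset.mem_powersetCard.1 (Finset.mem_coe.1 hS')).1 h')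
        rw [← Finset.erase_insert h1, ← Finset.erase_insert h2]
        exact congrArg (fun T => Finset.erase T a) h
      have h3 : ∑ S ∈ powersetCard m s, ∏ i ∈ insert a S, w i =
          w a * ∑ S ∈ powersetCard m s, ∏ i ∈ S, w i := by
        rw [Finset.mul_sum]
        refine Finset.sum_congr rfl fun S hS => ?_
        exact Finset.prod_insert fun h' => ha ((Finset.mem_powersetCard.1 hS).1 h')
      rw [Finset.powersetCard_succ_insert ha, Finset.sum_union hdisj, Finset.sum_image hinj, h3,
        Finset.sum_insert ha]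
      have h4 := ih (m + 1)
      have h5 := ih m
      have hX : 0 ≤ ∑ i ∈ s, w i := Finset.sum_nonneg fun i _ => hw i
      have h6 := pow_OVG (∑ i ∈ s, w i) (w a) hX (hw a) m
      have h7 : ((m : ℝ) + 1) * w a * ((m.factorial : ℝ) * ∑ S ∈ powersetCard m s, ∏ i ∈ S, w i) ≤
          ((m : ℝ) + 1) * w a * (∑ i ∈ s, w i) ^ m :=
        mul_le_mul_of_nonneg_left h5 (mul_nonneg (by positivity) (hw a))
      have h8 : ((m + 1).factorial : ℝ) = ((m : ℝ) + 1) * (m.factorial : ℝ) := by
        rw [Nat.factorial_succ]; push_cast; ring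
      rw [add_comm (w a)]
      refine le_trans ?_ h6
      calc ((m + 1).factorial : ℝ) * (∑ S ∈ powersetCard (m + 1) s, ∏ i ∈ S, w i +
            w a * ∑ S ∈ powersetCard m s, ∏ i ∈ S, w i)
          = ((m + 1).factorial : ℝ) * ∑ S ∈ powersetCard (m + 1) s, ∏ i ∈ S, w i +
            ((m : ℝ) + 1) * w a * ((m.factorial : ℝ) * ∑ S ∈ powersetCard m s, ∏ i ∈ S, w i) := by
              rw [h8]; ring
        _ ≤ (∑ i ∈ s, w i) ^ (m + 1) + ((m : ℝ) + 1) * w a * (∑ i ∈ s, w i) ^ m :=
              add_le_add h4 h7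
        _ = _ := by ring

open Classical in
/-- the functions with values in `J ∪ {0}` and the multiplicities `m` on `J` -/
private noncomputable def U_OVG (ι : Type) [Fintype ι] (J : Finset ℕ) (m : ℕ → ℕ) :
    Finset (ι → ℕ) :=
  (Fintype.piFinset fun _ : ι => insert 0 J).filter
    (fun u => ∀ v ∈ J, (univ.filter fun c => u c = v).card = m v)

private theorem group_OVG {ι : Type} [Fintype ι] (w : ι → ℕ → ℝ)
    (hw : ∀ i v, 0 ≤ w i v) (hw0 : ∀ i, w i 0 = 1) (m : ℕ → ℕ) (J : Finset ℕ) :
    0 ∉ J → ∑ u ∈ U_OVG ι J m, ∏ c, w c (u c) ≤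
      ∏ v ∈ J, ((∑ c, w c v) ^ m v / ((m v).factorial : ℝ)) := by
  classical
  induction J using Finset.induction_on with
  | empty =>
    intro _
    have h : U_OVG ι ∅ m = {fun _ => 0} := by
      ext u
      simp only [U_OVG, Finset.mem_filter, Fintype.mem_piFinset, Finset.mem_singleton,
        insert_empty_eq]
      constructor
      · rintro ⟨h, _⟩
        funext c
        exact h c
      · rintro rfl
        exact ⟨fun _ => rfl, fun v hv => absurd hv (Finset.notMem_empty v)⟩
    rw [h]
    simp [hw0]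
  | insert a J ha ih =>
    intro h0
    have ha0 : a ≠ 0 := fun h => h0 (by rw [h]; exact Finset.mem_insert_self _ _)
    have h0J : 0 ∉ J := fun h => h0 (Finset.mem_insert_of_mem h)
    set e : (ι → ℕ) → Finset ι × (ι → ℕ) := fun u =>
      (univ.filter fun c => u c = a, fun c => if u c = a then 0 else u c) with he
    set G : Finset ι × (ι → ℕ) → ℝ := fun x => (∏ c ∈ x.1, w c a) * ∏ c, w c (x.2 c) with hG
    have hinj : Set.InjOn e (U_OVG ι (insert a J) m : Set (ι → ℕ)) := by
      intro u _ u' _ h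
      have h1 : (univ.filter fun c => u c = a) = univ.filter fun c => u' c = a :=
        congrArg Prod.fst h
      have h2 : (fun c => if u c = a then 0 else u c) = fun c => if u' c = a then 0 else u' c :=
        congrArg Prod.snd h
      funext c
      have h3 := congrFun h2 c
      have h4 : u c = a ↔ u' c = a := by
        have := Finset.ext_iff.1 h1 c
        simpa using this
      by_cases hc : u c = a
      · rw [hc, h4.1 hc]
      · have hc' : ¬ u' c = a := fun h => hc (h4.2 h)
        simp only [if_neg hc, if_neg hc'] at h3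
        exact h3
    have hval : ∀ u ∈ U_OVG ι (insert a J) m, ∏ c, w c (u c) = G (e u) := by
      intro u _
      simp only [hG, he]
      rw [Finset.prod_filter, ← Finset.prod_mul_distrib]
      refine Finset.prod_congr rfl fun c _ => ?_
      by_cases hc : u c = a
      · rw [if_pos hc, if_pos hc, hw0, mul_one, hc]
      · simp only [if_neg hc, one_mul]
    have hsub : (U_OVG ι (insert a J) m).image e ⊆
        (univ.powersetCard (m a)) ×ˢ (U_OVG ι J m) := by
      intro x hx
      obtain ⟨u, hu, rfl⟩ := Finset.mem_image.1 hx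
      simp only [U_OVG, Finset.mem_filter, Fintype.mem_piFinset] at hu
      rw [Finset.mem_product]
      refine ⟨Finset.mem_powersetCard.2 ⟨Finset.subset_univ _, hu.2 a (Finset.mem_insert_self _ _)⟩,
        ?_⟩
      simp only [U_OVG, Finset.mem_filter, Fintype.mem_piFinset, he]
      constructor
      · intro c
        by_cases hc : u c = a
        · rw [if_pos hc]; exact Finset.mem_insert_self _ _
        · rw [if_neg hc]
          have := hu.1 c
          simp only [Finset.mem_insert] at this ⊢
          rcases this with h | h | h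
          · exact Or.inl h
          · exact absurd h hc
          · exact Or.inr h
      · intro v hv
        rw [← hu.2 v (Finset.mem_insert_of_mem hv)]
        congr 1
        ext c
        simp only [Finset.mem_filter, Finset.mem_univ, true_and]
        have hva : v ≠ a := fun h => ha (h ▸ hv)
        have hv0 : v ≠ 0 := fun h => h0J (h ▸ hv)
        by_cases hc : u c = a
        · rw [if_pos hc, hc]
          exact ⟨fun h => absurd h.symm hv0, fun h => absurd h.symm hva⟩
        · rw [if_neg hc]
    have hnn : ∀ x : Finset ι × (ι → ℕ), 0 ≤ G x := fun x =>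
      mul_nonneg (Finset.prod_nonneg fun c _ => hw c a) (Finset.prod_nonneg fun c _ => hw c _)
    have hes := esymm_OVG (fun c => w c a) (fun c => hw c a) univ (m a)
    have hfac : (0 : ℝ) < ((m a).factorial : ℝ) := by exact_mod_cast Nat.factorial_pos _
    calc ∑ u ∈ U_OVG ι (insert a J) m, ∏ c, w c (u c)
        = ∑ u ∈ U_OVG ι (insert a J) m, G (e u) := Finset.sum_congr rfl hval
      _ = ∑ x ∈ (U_OVG ι (insert a J) m).image e, G x := (Finset.sum_image hinj).symm
      _ ≤ ∑ x ∈ (univ.powersetCard (m a)) ×ˢ (U_OVG ι J m), G x :=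
          Finset.sum_le_sum_of_subset_of_nonneg hsub fun x _ _ => hnn x
      _ = (∑ S ∈ univ.powersetCard (m a), ∏ c ∈ S, w c a) *
            ∑ u ∈ U_OVG ι J m, ∏ c, w c (u c) := by
          rw [Finset.sum_product, Finset.sum_mul_sum]
      _ ≤ ((∑ c, w c a) ^ m a / ((m a).factorial : ℝ)) *
            ∏ v ∈ J, ((∑ c, w c v) ^ m v / ((m v).factorial : ℝ)) := by
          refine mul_le_mul ?_ (ih h0J) ?_ ?_
          · rw [le_div_iff₀ hfac, mul_comm]
            exact hes
          · exact Finset.sum_nonneg fun u _ => Finset.prod_nonneg fun c _ => hw c _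
          · exact div_nonneg (pow_nonneg (Finset.sum_nonneg fun c _ => hw c a) _) hfac.le
      _ = _ := by rw [Finset.prod_insert ha]

private theorem szle_OVG (n k : ℕ) (i : Fin k) : sz n k i ≤ n / k + 1 := by
  unfold sz; split_ifs <;> omega

private theorem szsum_OVG (n k : ℕ) (hk : 1 ≤ k) : ∑ i : Fin k, sz n k i = n := by
  unfold sz
  rw [Finset.sum_add_distrib, Finset.sum_const, Finset.card_univ, Fintype.card_fin, smul_eq_mul,
    ← Finset.card_filter]
  have h1 : n % k < k := Nat.mod_lt _ hk
  have h2 : (univ.filter fun i : Fin k => (i : ℕ) < n % k).card = n % k := by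
    have := Fin.card_filter_val_lt (n := k) (m := n % k)
    rw [this]
    exact min_eq_right h1.le
  rw [h2]
  exact Nat.div_add_mod n k

private theorem two_OVG (k : ℕ) (f : Fin k → ℝ) (Z : ℝ) :
    ∑ c : Fin k × Fin k, f c.1 * f c.2 * Z = (∑ i, f i) ^ 2 * Z := by
  rw [Fintype.sum_prod_type, sq, Finset.sum_mul_sum, Finset.sum_mul]
  refine Finset.sum_congr rfl fun i _ => ?_
  rw [Finset.sum_mul]

private theorem Yv_OVG (p : ℝ) (n k v : ℕ) (hp : p < 1) (hk : 1 ≤ k) (hv : v ≤ n / k + 1) :
    ∑ c : Fin k × Fin k, Gc p n k c.1 c.2 v ≤ Yv p n k v := by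
  have hq : 0 < 1 - p := by linarith
  have hZ : 0 ≤ (v.factorial : ℝ) * (1 / (1 - p)) ^ (v.choose 2) := by positivity
  have h1 : ∀ c : Fin k × Fin k, Gc p n k c.1 c.2 v =
      ((sz n k c.1).choose v : ℝ) * ((sz n k c.2).choose v : ℝ) *
        ((v.factorial : ℝ) * (1 / (1 - p)) ^ (v.choose 2)) := by
    intro c; unfold Gc; ring
  rw [Finset.sum_congr rfl fun c _ => h1 c,
    two_OVG k (fun i => ((sz n k i).choose v : ℝ)) _]
  unfold Yv
  split_ifs with h
  · have h2 : ∑ i : Fin k, ((sz n k i).choose v : ℝ) ≤ (k : ℝ) * ((n / k + 1).choose v : ℝ) := by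
      calc ∑ i : Fin k, ((sz n k i).choose v : ℝ)
          ≤ ∑ _i : Fin k, ((n / k + 1).choose v : ℝ) :=
            Finset.sum_le_sum fun i _ => by
              exact_mod_cast Nat.choose_le_choose v (szle_OVG n k i)
        _ = _ := by simp
    calc (∑ i : Fin k, ((sz n k i).choose v : ℝ)) ^ 2 *
          ((v.factorial : ℝ) * (1 / (1 - p)) ^ (v.choose 2))
        ≤ ((k : ℝ) * ((n / k + 1).choose v : ℝ)) ^ 2 *
          ((v.factorial : ℝ) * (1 / (1 - p)) ^ (v.choose 2)) := by
          refine mul_le_mul_of_nonneg_right (pow_le_pow_left₀ ?_ h2 2) hZ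
          exact Finset.sum_nonneg fun i _ => by positivity
      _ = _ := by ring
  · have hv' : v = n / k + 1 := by omega
    have h2 : ∑ i : Fin k, ((sz n k i).choose v : ℝ) = ((n % k : ℕ) : ℝ) := by
      have h3 : ∀ i : Fin k, ((sz n k i).choose v : ℝ) = if (i : ℕ) < n % k then (1 : ℝ) else 0 := by
        intro i
        unfold sz
        split_ifs with hi
        · rw [hv', Nat.choose_self]; simp
        · rw [hv', add_zero, Nat.choose_eq_zero_of_lt (Nat.lt_succ_self _)]; simp
      rw [Finset.sum_congr rfl fun i _ => h3 i, Finset.sum_boole]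
      have h5 := Fin.card_filter_val_lt (n := k) (m := n % k)
      rw [h5, min_eq_right (Nat.mod_lt _ hk).le]
    rw [h2]
    apply le_of_eq
    ring

theorem tOVG : StOvg := by
  classical
  intro p n k Y hp0 hp1 hk hkn hY hT
  have hq : 0 < 1 - p := by linarith
  have ht1 : 1 ≤ n / k := Nat.div_pos hkn hk
  set t := n / k with ht
  have hGc : ∀ (c : Fin k × Fin k) (v : ℕ), 0 ≤ Gc p n k c.1 c.2 v := by
    intro c v; unfold Gc; positivity
  have hGc0 : ∀ c : Fin k × Fin k, Gc p n k c.1 c.2 0 = 1 := by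
    intro c; unfold Gc; simp
  set I : Finset ℕ := Icc 2 (t + 1) with hI
  have h0I : 0 ∉ I := by rw [hI]; simp
  set mult : (Fin k → Fin k → ℕ) → ℕ → ℕ := fun u v =>
    (univ.filter fun c : Fin k × Fin k => u c.1 c.2 = v).card with hmult
  have hrow : ∀ u ∈ UU n k, ∀ i, ∑ j, u i j ≤ sz n k i := by
    intro u hu; exact (Finset.mem_filter.1 hu).2.2
  have hval : ∀ u ∈ UU n k, ∀ i j, u i j = 0 ∨ u i j ∈ I := by
    intro u hu i j
    have h1 := (Finset.mem_filter.1 hu).2.1 i j
    have h2 : u i j ≤ ∑ j, u i j := Finset.single_le_sum (fun _ _ => Nat.zero_le _) (mem_univ j)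
    have h3 := hrow u hu i
    have h4 := szle_OVG n k i
    rw [hI, Finset.mem_Icc]
    omega
  have hsum : ∀ u ∈ UU n k, ∑ i, ∑ j, u i j = ∑ v ∈ I, v * mult u v := by
    intro u hu
    have h1 : ∑ i, ∑ j, u i j = ∑ c : Fin k × Fin k, u c.1 c.2 := by
      rw [Fintype.sum_prod_type]
    have h2 : ∀ c : Fin k × Fin k, u c.1 c.2 = ∑ v ∈ I, if u c.1 c.2 = v then v else 0 := by
      intro c
      rw [Finset.sum_ite_eq]
      split_ifs with h
      · rfl
      · exact (hval u hu c.1 c.2).resolve_right h
    rw [h1, Finset.sum_congr rfl fun c _ => h2 c, Finset.sum_comm]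
    refine Finset.sum_congr rfl fun v _ => ?_
    rw [← Finset.sum_filter, Finset.sum_const, smul_eq_mul, mul_comm]
  have htot : ∀ u ∈ UU n k, ∑ i, ∑ j, u i j ≤ n := by
    intro u hu
    calc ∑ i, ∑ j, u i j ≤ ∑ i, sz n k i := Finset.sum_le_sum fun i _ => hrow u hu i
      _ = n := szsum_OVG n k hk
  set mu : (Fin k → Fin k → ℕ) → (↥I → ℕ) := fun u v => mult u v with hmu
  set M : Finset (↥I → ℕ) := Fintype.piFinset fun _ => range (n + 1) with hM
  have hMcard : (M.card : ℝ) = ((n : ℝ) + 1) ^ t := by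
    rw [hM, Fintype.card_piFinset]
    simp only [Finset.card_range, Finset.prod_const, Finset.card_univ, Fintype.card_coe]
    rw [hI, Nat.card_Icc]
    push_cast
    congr 1
  have hmaps : ∀ u ∈ UU n k, mu u ∈ M := by
    intro u hu
    rw [hM, Fintype.mem_piFinset]
    rintro ⟨v, hv⟩
    rw [Finset.mem_range]
    have h1 : v * mult u v ≤ ∑ v ∈ I, v * mult u v :=
      Finset.single_le_sum (f := fun v => v * mult u v) (fun _ _ => Nat.zero_le _) hv
    have h2 := hsum u hu
    have h3 := htot u hu
    have h4 : 2 ≤ v := by rw [hI, Finset.mem_Icc] at hv; exact hv.1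
    have h5 : mult u v ≤ v * mult u v := Nat.le_mul_of_pos_left _ (by omega)
    show mult u v < n + 1
    omega
  have key : ∀ m ∈ M, ∑ u ∈ (UU n k).filter (fun u => mu u = m),
      ((n - ∑ i, ∑ j, u i j).factorial : ℝ) * ∏ i, ∏ j, Gc p n k i j (u i j) ≤
        (n.factorial : ℝ) * Y := by
    intro m _
    rcases ((UU n k).filter (fun u => mu u = m)).eq_empty_or_nonempty with h | ⟨u0, hu0⟩
    · rw [h, Finset.sum_empty]; positivity
    set m' : ℕ → ℕ := fun v => if h : v ∈ I then m ⟨v, h⟩ else 0 with hm'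
    have hmm : ∀ u ∈ (UU n k).filter (fun u => mu u = m), ∀ v ∈ I, mult u v = m' v := by
      intro u hu v hv
      have h1 := congrFun (Finset.mem_filter.1 hu).2 ⟨v, hv⟩
      simp only [hm', dif_pos hv]
      exact h1
    have hs : ∀ u ∈ (UU n k).filter (fun u => mu u = m),
        ∑ i, ∑ j, u i j = ∑ v ∈ I, v * m' v := by
      intro u hu
      rw [hsum u (Finset.mem_filter.1 hu).1]
      exact Finset.sum_congr rfl fun v hv => by rw [hmm u hu v hv]
    have hu0' := (Finset.mem_filter.1 hu0).1
    have hsn : ∑ v ∈ I, v * m' v ≤ n := by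
      rw [← hs u0 hu0]; exact htot u0 hu0'
    have hTI : t + 1 ∈ I := by rw [hI, Finset.mem_Icc]; omega
    have hmT : m' (t + 1) ≤ n % k := by
      rw [← hmm u0 hu0 (t + 1) hTI]
      have h5 : (univ.filter fun i : Fin k => (i : ℕ) < n % k).card = n % k := by
        have := Fin.card_filter_val_lt (n := k) (m := n % k)
        rw [this, min_eq_right (Nat.mod_lt _ hk).le]
      rw [← h5]
      refine Finset.card_le_card_of_injOn (fun c => c.1) ?_ ?_
      · intro c hc
        have hc' : u0 c.1 c.2 = t + 1 := (Finset.mem_filter.1 (Finset.mem_coe.1 hc)).2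
        have h2 : u0 c.1 c.2 ≤ ∑ j, u0 c.1 j :=
          Finset.single_le_sum (f := fun j => u0 c.1 j) (fun _ _ => Nat.zero_le _) (mem_univ c.2)
        have h3 := hrow u0 hu0' c.1
        refine Finset.mem_coe.2 (Finset.mem_filter.2 ⟨mem_univ _, ?_⟩)
        by_contra hlt
        have h4 : sz n k c.1 = t := by unfold sz; rw [if_neg hlt, add_zero]
        omega
      · intro c hc c' hc' hcc
        have h1 : u0 c.1 c.2 = t + 1 := (Finset.mem_filter.1 (Finset.mem_coe.1 hc)).2
        have h2 : u0 c'.1 c'.2 = t + 1 := (Finset.mem_filter.1 (Finset.mem_coe.1 hc')).2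
        have hcc' : c.1 = c'.1 := hcc
        by_contra hne
        have hne2 : c.2 ≠ c'.2 := fun h => hne (Prod.ext hcc' h)
        have h3 : ∑ j ∈ ({c.2, c'.2} : Finset (Fin k)), u0 c.1 j ≤ ∑ j, u0 c.1 j :=
          Finset.sum_le_sum_of_subset (Finset.subset_univ _)
        rw [Finset.sum_pair hne2] at h3
        rw [← hcc'] at h2
        have h4 := hrow u0 hu0' c.1
        have h5 := szle_OVG n k c.1
        omega
    have hTm := hT m' hsn hmT
    set s := ∑ v ∈ I, v * m' v with hsdef
    have hinj : Set.InjOn (fun (u : Fin k → Fin k → ℕ) (c : Fin k × Fin k) => u c.1 c.2)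
        ((UU n k).filter (fun u => mu u = m) : Set (Fin k → Fin k → ℕ)) := by
      intro u _ u' _ h
      funext i j
      exact congrFun h (i, j)
    have himg : ((UU n k).filter (fun u => mu u = m)).image
        (fun (u : Fin k → Fin k → ℕ) (c : Fin k × Fin k) => u c.1 c.2) ⊆
        U_OVG (Fin k × Fin k) I m' := by
      intro x hx
      obtain ⟨u, hu, rfl⟩ := Finset.mem_image.1 hx
      simp only [U_OVG, Finset.mem_filter, Fintype.mem_piFinset]
      constructor
      · intro c
        rw [Finset.mem_insert]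
        exact hval u (Finset.mem_filter.1 hu).1 c.1 c.2
      · intro v hv
        rw [← hmm u hu v hv]
    have hfs : (0 : ℝ) ≤ ((n - s).factorial : ℝ) := by positivity
    have hfn : (0 : ℝ) < (n.factorial : ℝ) := by exact_mod_cast Nat.factorial_pos n
    have hgrp := group_OVG (fun (c : Fin k × Fin k) v => Gc p n k c.1 c.2 v) hGc hGc0 m' I h0I
    calc ∑ u ∈ (UU n k).filter (fun u => mu u = m),
          ((n - ∑ i, ∑ j, u i j).factorial : ℝ) * ∏ i, ∏ j, Gc p n k i j (u i j)
        = ∑ u ∈ (UU n k).filter (fun u => mu u = m),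
          ((n - s).factorial : ℝ) * ∏ c : Fin k × Fin k, Gc p n k c.1 c.2 (u c.1 c.2) := by
          refine Finset.sum_congr rfl fun u hu => ?_
          rw [hs u hu, Fintype.prod_prod_type]
      _ = ((n - s).factorial : ℝ) * ∑ u ∈ (UU n k).filter (fun u => mu u = m),
          ∏ c : Fin k × Fin k, Gc p n k c.1 c.2 (u c.1 c.2) := by rw [Finset.mul_sum]
      _ = ((n - s).factorial : ℝ) * ∑ x ∈ ((UU n k).filter (fun u => mu u = m)).image
          (fun (u : Fin k → Fin k → ℕ) (c : Fin k × Fin k) => u c.1 c.2),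
          ∏ c : Fin k × Fin k, Gc p n k c.1 c.2 (x c) := by
          rw [Finset.sum_image hinj]
      _ ≤ ((n - s).factorial : ℝ) * ∑ x ∈ U_OVG (Fin k × Fin k) I m',
          ∏ c : Fin k × Fin k, Gc p n k c.1 c.2 (x c) :=
          mul_le_mul_of_nonneg_left (Finset.sum_le_sum_of_subset_of_nonneg himg
            fun x _ _ => Finset.prod_nonneg fun c _ => hGc c _) hfs
      _ ≤ ((n - s).factorial : ℝ) * ∏ v ∈ I, ((∑ c : Fin k × Fin k, Gc p n k c.1 c.2 v) ^ m' v /
          ((m' v).factorial : ℝ)) :=
          mul_le_mul_of_nonneg_left hgrp hfs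
      _ ≤ ((n - s).factorial : ℝ) * ∏ v ∈ I, (Yv p n k v ^ m' v / ((m' v).factorial : ℝ)) := by
          refine mul_le_mul_of_nonneg_left (Finset.prod_le_prod ?_ ?_) hfs
          · intro v _
            exact div_nonneg (pow_nonneg (Finset.sum_nonneg fun c _ => hGc c v) _) (by positivity)
          · intro v hv
            have hv' : v ≤ n / k + 1 := by rw [hI, Finset.mem_Icc] at hv; exact hv.2
            refine div_le_div_of_nonneg_right ?_ (by positivity)
            exact pow_le_pow_left₀ (Finset.sum_nonneg fun c _ => hGc c v)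
              (Yv_OVG p n k v hp1 hk hv') _
      _ = (n.factorial : ℝ) * Tm p n k m' := by
          unfold Tm
          rw [← mul_assoc, mul_div_cancel₀ _ hfn.ne']
      _ ≤ (n.factorial : ℝ) * Y := mul_le_mul_of_nonneg_left hTm hfn.le
  rw [← Finset.sum_fiberwise_of_maps_to hmaps]
  calc _ ≤ ∑ _m ∈ M, (n.factorial : ℝ) * Y := Finset.sum_le_sum key
    _ = ((n : ℝ) + 1) ^ t * (n.factorial * Y) := by
        rw [Finset.sum_const, nsmul_eq_mul, hMcard]

end Pool.Agent.Helper4.CN
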